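import Pool.Agent.Lib.MP_ad4d1c_co_h48.ExDefs
import Pool.Agent.Lib.MP_ad4d1c_co_h87.ExC1
import Pool.Agent.Lib.MP_ad4d1c_co_h40.ExC2
import Pool.Agent.Lib.MP_ad4d1c_co_h51.ExU

set_option autoImplicit false
set_option linter.unusedSimpArgs false

/-!
# Module VG: the two general W-side constructions (`vgen`, `vfirst`)
-/

namespace Pool.Agent.Lib.MP_ad4d1c_co_h48.Ex

open Finset

namespace VG

theorem univ' {b a : List ℕ} (b0 a0 : List ℕ) (u y v : ℕ) (hb : b = b0 ++ [u, y])
    (ha : a = y :: v :: a0) (hlen : 6 ≤ b0.length) (hnd : b.Nodup) (hp : a.Perm b)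
    (huv : u ≠ v) : ∃ L, PV b a L := by
  subst hb ha
  exact univ hlen hnd hp huv

theorem comp' {b c a b' a' : List ℕ} {y : ℕ} {N Y : Fam} (hN : PV b c N) (hY : PV c a Y)
    (hb' : b' = b ++ [y]) (ha' : a' = y :: a) (hy : y ∉ b) (hb : b ≠ []) :
    PV b' a' (comp y N Y) := by
  subst hb' ha'
  exact hN.comp hY hy hb

theorem av_mem {b c a : List ℕ} {y : ℕ} {N Y : Fam} {M : Finset ℕ} (M' : Finset ℕ)
    (hN : PV b c N) (hY : PV c a Y) (hy : y ∉ b) (hM : y ∈ M) (h : Avoid Y M')
    (hM' : M.erase y = M') : Avoid (comp y N Y) M := by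
  subst hM'
  refine avoid_comp_of_mem hN hy hM h ?_
  intro l p hp hyp
  have h1 := hY.tpv.mem l p (List.mem_append_right _ hp)
  have h2 := h1.2.1 (h1.1 hyp)
  rw [List.mem_toFinset] at h2
  exact hy (hN.perm.mem_iff.1 h2)

theorem av_congr {L : Fam} {M M' : Finset ℕ} (h : Avoid L M') (hM : M = M') : Avoid L M := by
  subst hM; exact h

theorem ypart1 {q r q' x w d1 d2 : ℕ} {D' a' : List ℕ}
    (hnd : (q' :: q :: r :: x :: w :: d1 :: d2 :: D').Nodup) (hD : 3 ≤ D'.length)
    (ha : a'.Perm (d2 :: D')) :
    ∃ Y, PV (q' :: d2 :: d1 :: (D' ++ [w, r, q, x])) (x :: q' :: w :: (a' ++ [q, r, d1])) Y ∧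
      (∀ j, j ≤ D'.length → Avoid Y (insert q' (insert d2 (insert d1 (D'.take j).toFinset)))) ∧
      Avoid Y {q'} ∧
      Avoid Y ((q' :: q :: r :: x :: w :: d1 :: d2 :: D').toFinset \ {w}) ∧
      Avoid Y ((q' :: q :: r :: x :: w :: d1 :: d2 :: D').toFinset \ {w, r}) ∧
      Avoid Y ((q' :: q :: r :: x :: w :: d1 :: d2 :: D').toFinset \ {w, r, x}) := by
  have hac : ∀ z, a'.count z = (d2 :: D').count z := fun z => ha.count_eq z
  simp only [List.count_cons] at hac
  have hc := List.nodup_iff_count_le_one.1 hnd
  simp only [List.count_cons] at hc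
  have hnd2 := hnd
  simp only [List.nodup_cons, List.mem_cons, not_or] at hnd2
  obtain ⟨Ya, hYa⟩ : ∃ L, PV (q' :: d2 :: d1 :: (D' ++ [w, r, q]))
      (q :: w :: d1 :: d2 :: (D' ++ [r, q'])) L := by
    refine univ' (q' :: d2 :: d1 :: (D' ++ [w])) (d1 :: d2 :: (D' ++ [r, q'])) r q w
      (by simp) rfl (by simp; omega) ?_ ?_ (by tauto)
    · (rw [List.nodup_iff_count_le_one]; intro z; have := hc z; simp only [List.count_append, List.count_cons, List.count_nil] at *; omega)
    · (rw [List.perm_iff_count]; intro z; simp only [List.count_append, List.count_cons, List.count_nil]; omega)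
  obtain ⟨Yb, hYb⟩ : ∃ L, PV (q :: w :: d1 :: d2 :: (D' ++ [r, q']))
      (q' :: w :: (a' ++ [q, r, d1])) L := by
    refine univ' (q :: w :: d1 :: d2 :: D') (a' ++ [q, r, d1]) r q' w
      (by simp) rfl (by simp; omega) ?_ ?_ (by tauto)
    · (rw [List.nodup_iff_count_le_one]; intro z; have := hc z; simp only [List.count_append, List.count_cons, List.count_nil] at *; omega)
    · rw [List.perm_iff_count]; intro z; have := hac z; simp only [List.count_append, List.count_cons,
        List.count_nil]; omega
  have hxb : x ∉ q' :: d2 :: d1 :: (D' ++ [w, r, q]) := by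
    simp only [List.mem_cons, List.mem_append, List.not_mem_nil, or_false]
    tauto
  have hxt : ∀ j, x ∉ D'.take j := fun j h => hnd2.2.2.2.1.2.2.2 (List.mem_of_mem_take h)
  refine ⟨comp x Ya Yb, comp' hYa hYb (by simp) rfl hxb (by simp), ?_, ?_, ?_, ?_, ?_⟩
  · intro j hj
    refine avoid_comp_of_not_mem ?_ ?_
    · have := hxt j
      simp only [Finset.mem_insert, List.mem_toFinset]
      tauto
    · refine av_congr (hYa.avoid_head (j + 2)) ?_
      simp [List.take_append_of_le_length hj]
  · refine avoid_comp_of_not_mem ?_ ?_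
    · (simp only [Finset.mem_erase, Finset.mem_sdiff, List.mem_toFinset, List.mem_cons, List.mem_append, List.not_mem_nil, or_false, Finset.mem_insert, Finset.mem_singleton, ne_eq, not_or, Finset.mem_union]; clear * - hnd2; grind)
    · refine av_congr (hYa.avoid_head 0) ?_
      simp
  · refine av_mem ((q :: w :: d1 :: d2 :: (D' ++ [r, q'])).toFinset \ {w}) hYa hYb hxb ?_ ?_ ?_
    · (simp only [Finset.mem_erase, Finset.mem_sdiff, List.mem_toFinset, List.mem_cons, List.mem_append, List.not_mem_nil, or_false, Finset.mem_insert, Finset.mem_singleton, ne_eq, not_or, Finset.mem_union]; clear * - hnd2; grind)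
    · exact PV.avoid_top (a0 := q' :: w :: (a' ++ [q, r])) (v := d1) (by simpa using hYb) (by tauto)
    · (ext z; simp only [Finset.mem_erase, Finset.mem_sdiff, List.mem_toFinset, List.mem_cons, List.mem_append, List.not_mem_nil, or_false, Finset.mem_insert, Finset.mem_singleton, ne_eq, not_or, Finset.mem_union]; clear * - hnd2; grind)
  · refine av_mem ((q :: w :: d1 :: d2 :: (D' ++ [r, q'])).toFinset \ {w, r}) hYa hYb hxb ?_ ?_ ?_
    · (simp only [Finset.mem_erase, Finset.mem_sdiff, List.mem_toFinset, List.mem_cons, List.mem_append, List.not_mem_nil, or_false, Finset.mem_insert, Finset.mem_singleton, ne_eq, not_or, Finset.mem_union]; clear * - hnd2; grind)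
    · exact PV.avoid_top2 (a0 := q' :: w :: a') (t := q) (u := r) (v := d1)
        (by simpa using hYb) (by simp) (by tauto) (by tauto) (by tauto)
    · (ext z; simp only [Finset.mem_erase, Finset.mem_sdiff, List.mem_toFinset, List.mem_cons, List.mem_append, List.not_mem_nil, or_false, Finset.mem_insert, Finset.mem_singleton, ne_eq, not_or, Finset.mem_union]; clear * - hnd2; grind)
  · obtain ⟨D0, dL, rfl⟩ := List.eq_nil_or_concat' D' |>.resolve_left (by rintro rfl; simp at hD)
    refine avoid_comp_of_not_mem (by (simp only [Finset.mem_erase, Finset.mem_sdiff, List.mem_toFinset, List.mem_cons, List.mem_append, List.not_mem_nil, or_false, Finset.mem_insert, Finset.mem_singleton, ne_eq, not_or, Finset.mem_union]; clear * - hnd2; grind)) ?_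
    refine av_congr (PV.avoid_top2 (a0 := q :: w :: d1 :: d2 :: D0) (t := dL) (u := r) (v := q')
        (x := w) (by simpa using hYa) (by simp) ?_ (by tauto) (by tauto)) ?_
    · simp only [List.mem_append, List.mem_singleton, not_or] at hnd2
      tauto
    · simp only [List.mem_append, List.mem_singleton, not_or] at hnd2
      (ext z; simp only [Finset.mem_erase, Finset.mem_sdiff, List.mem_toFinset, List.mem_cons, List.mem_append, List.not_mem_nil, or_false, Finset.mem_insert, Finset.mem_singleton, ne_eq, not_or, Finset.mem_union]; clear * - hnd2; grind)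

theorem ypart2 {q r q' x w d1 d2 : ℕ} {D' a' : List ℕ}
    (hnd : (q' :: q :: r :: x :: w :: d1 :: d2 :: D').Nodup) (hD : 3 ≤ D'.length)
    (ha : a'.Perm (d2 :: D')) :
    ∃ Y, PV (q' :: d2 :: d1 :: (D' ++ [w, r, q, x])) (x :: q' :: w :: (a' ++ [q, r, d1])) Y ∧
      (∀ j, j ≤ D'.length → Avoid Y (insert q' (insert d2 (insert d1 (D'.take j).toFinset)))) ∧
      Avoid Y {q'} ∧
      Avoid Y ((q' :: q :: r :: x :: w :: d1 :: d2 :: D').toFinset \ {w, q, r}) := by
  have hac : ∀ z, a'.count z = (d2 :: D').count z := fun z => ha.count_eq z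
  simp only [List.count_cons] at hac
  have hc := List.nodup_iff_count_le_one.1 hnd
  simp only [List.count_cons] at hc
  have hnd2 := hnd
  simp only [List.nodup_cons, List.mem_cons, not_or] at hnd2
  obtain ⟨Ya, hYa⟩ : ∃ L, PV (q' :: d2 :: d1 :: (D' ++ [w, r, q]))
      (q :: w :: r :: d1 :: d2 :: (D' ++ [q'])) L := by
    refine univ' (q' :: d2 :: d1 :: (D' ++ [w])) (r :: d1 :: d2 :: (D' ++ [q'])) r q w
      (by simp) rfl (by simp; omega) ?_ ?_ (by tauto)
    · (rw [List.nodup_iff_count_le_one]; intro z; have := hc z; simp only [List.count_append, List.count_cons, List.count_nil] at *; omega)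
    · (rw [List.perm_iff_count]; intro z; simp only [List.count_append, List.count_cons, List.count_nil]; omega)
  obtain ⟨Ybb, hYbb, hYbb2⟩ : ∃ L, (∀ D0 dL, D' = D0 ++ [dL] →
      PV (dL :: d1 :: d2 :: (D0 ++ [q, r, w])) (w :: (a' ++ [q, r, d1])) L) ∧
      Avoid L (insert d1 (insert d2 D'.toFinset)) := by
    obtain ⟨D0, dL, rfl⟩ := List.eq_nil_or_concat' D' |>.resolve_left (by rintro rfl; simp at hD)
    obtain ⟨v, a'', rfl⟩ := List.exists_cons_of_ne_nil (l := a')
      (by rintro rfl; simpa using ha.length_eq)
    have hv : r ≠ v := by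
      rintro rfl
      have := ha.mem_iff.1 (List.mem_cons_self (a := r) (l := a''))
      simp only [List.mem_cons] at this
      tauto
    obtain ⟨L, hL⟩ : ∃ L, PV (dL :: d1 :: d2 :: (D0 ++ [q, r, w]))
        (w :: (v :: a'' ++ [q, r, d1])) L := by
      refine univ' (dL :: d1 :: d2 :: (D0 ++ [q])) (a'' ++ [q, r, d1]) r w v
        (by simp) rfl (by simp at hD ⊢; omega) ?_ ?_ hv
      · simp only [List.count_append, List.count_cons, List.count_nil] at hc
        (rw [List.nodup_iff_count_le_one]; intro z; have := hc z; simp only [List.count_append, List.count_cons, List.count_nil] at *; omega)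
      · rw [List.perm_iff_count]; intro z; have := hac z
        simp only [List.count_append, List.count_cons, List.count_nil] at this ⊢; omega
    refine ⟨L, ?_, ?_⟩
    · intro D0' dL' h
      obtain ⟨rfl, h2⟩ := List.append_inj' h rfl
      simp only [List.cons.injEq, and_true] at h2
      subst h2
      exact hL
    · refine av_congr (hL.avoid_head (D0.length + 2)) ?_
      have : List.take (D0.length + 2 + 1) (dL :: d1 :: d2 :: (D0 ++ [q, r, w])) =
          dL :: d1 :: d2 :: D0 := by
        simp
      rw [this]
      (ext z; simp only [Finset.mem_erase, Finset.mem_sdiff, List.mem_toFinset, List.mem_cons, List.mem_append, List.not_mem_nil, or_false, Finset.mem_insert, Finset.mem_singleton, ne_eq, not_or, Finset.mem_union]; clear * - hnd2; grind)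
  obtain ⟨Yba, hYba⟩ : ∃ L, (∀ D0 dL, D' = D0 ++ [dL] →
      PV (q :: w :: r :: d1 :: d2 :: D') (dL :: d1 :: d2 :: (D0 ++ [q, r, w])) L) := by
    obtain ⟨D0, dL, rfl⟩ := List.eq_nil_or_concat' D' |>.resolve_left (by rintro rfl; simp at hD)
    obtain ⟨D1, dK, rfl⟩ := List.eq_nil_or_concat' D0 |>.resolve_left (by rintro rfl; simp at hD)
    simp only [List.mem_append, List.mem_singleton, not_or] at hnd2
    simp only [List.count_append, List.count_cons, List.count_nil] at hc
    obtain ⟨L, hL⟩ : ∃ L, PV (q :: w :: r :: d1 :: d2 :: (D1 ++ [dK] ++ [dL]))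
        (dL :: d1 :: d2 :: (D1 ++ [dK] ++ [q, r, w])) L := by
      refine univ' (q :: w :: r :: d1 :: d2 :: D1) (d2 :: (D1 ++ [dK] ++ [q, r, w])) dK dL d1
        (by simp) rfl (by simp at hD ⊢; omega) ?_ ?_ (by tauto)
      · (rw [List.nodup_iff_count_le_one]; intro z; have := hc z; simp only [List.count_append, List.count_cons, List.count_nil] at *; omega)
      · (rw [List.perm_iff_count]; intro z; simp only [List.count_append, List.count_cons, List.count_nil]; omega)
    refine ⟨L, ?_⟩
    intro D0' dL' h
    obtain ⟨rfl, h2⟩ := List.append_inj' h rfl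
    simp only [List.cons.injEq, and_true] at h2
    subst h2
    exact hL
  obtain ⟨D0, dL, hDD⟩ := List.eq_nil_or_concat' D' |>.resolve_left (by rintro rfl; simp at hD)
  have h1 := hYbb D0 dL hDD
  have h2 := hYba D0 dL hDD
  have hq'b : q' ∉ q :: w :: r :: d1 :: d2 :: D' := by (simp only [Finset.mem_erase, Finset.mem_sdiff, List.mem_toFinset, List.mem_cons, List.mem_append, List.not_mem_nil, or_false, Finset.mem_insert, Finset.mem_singleton, ne_eq, not_or, Finset.mem_union]; clear * - hnd2; grind)
  have hYb : PV (q :: w :: r :: d1 :: d2 :: (D' ++ [q'])) (q' :: w :: (a' ++ [q, r, d1]))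
      (comp q' Yba Ybb) := comp' h2 h1 (by simp) rfl hq'b (by simp)
  have hxb : x ∉ q' :: d2 :: d1 :: (D' ++ [w, r, q]) := by (simp only [Finset.mem_erase, Finset.mem_sdiff, List.mem_toFinset, List.mem_cons, List.mem_append, List.not_mem_nil, or_false, Finset.mem_insert, Finset.mem_singleton, ne_eq, not_or, Finset.mem_union]; clear * - hnd2; grind)
  have hxt : ∀ j, x ∉ D'.take j := fun j h => hnd2.2.2.2.1.2.2.2 (List.mem_of_mem_take h)
  refine ⟨comp x Ya (comp q' Yba Ybb), comp' hYa hYb (by simp) rfl hxb (by simp), ?_, ?_, ?_⟩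
  · intro j hj
    refine avoid_comp_of_not_mem ?_ ?_
    · have := hxt j
      simp only [Finset.mem_insert, List.mem_toFinset]
      tauto
    · refine av_congr (hYa.avoid_head (j + 2)) ?_
      simp [List.take_append_of_le_length hj]
  · refine avoid_comp_of_not_mem ?_ ?_
    · (simp only [Finset.mem_erase, Finset.mem_sdiff, List.mem_toFinset, List.mem_cons, List.mem_append, List.not_mem_nil, or_false, Finset.mem_insert, Finset.mem_singleton, ne_eq, not_or, Finset.mem_union]; clear * - hnd2; grind)
    · refine av_congr (hYa.avoid_head 0) ?_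
      simp
  · refine av_mem (((q' :: q :: r :: x :: w :: d1 :: d2 :: D').toFinset \ {w, q, r}).erase x)
      hYa hYb hxb ?_ ?_ rfl
    · (simp only [Finset.mem_erase, Finset.mem_sdiff, List.mem_toFinset, List.mem_cons, List.mem_append, List.not_mem_nil, or_false, Finset.mem_insert, Finset.mem_singleton, ne_eq, not_or, Finset.mem_union]; clear * - hnd2; grind)
    · refine av_mem (insert d1 (insert d2 D'.toFinset)) h2 h1 hq'b ?_ hYbb2 ?_
      · (simp only [Finset.mem_erase, Finset.mem_sdiff, List.mem_toFinset, List.mem_cons, List.mem_append, List.not_mem_nil, or_false, Finset.mem_insert, Finset.mem_singleton, ne_eq, not_or, Finset.mem_union]; clear * - hnd2; grind)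
      · (ext z; simp only [Finset.mem_erase, Finset.mem_sdiff, List.mem_toFinset, List.mem_cons, List.mem_append, List.not_mem_nil, or_false, Finset.mem_insert, Finset.mem_singleton, ne_eq, not_or, Finset.mem_union]; clear * - hnd2; grind)

theorem npart_gen {q r q' x w d1 d2 : ℕ} {D' : List ℕ}
    (hnd : (q' :: q :: r :: x :: w :: d1 :: d2 :: D').Nodup) (hD : 3 ≤ D'.length) :
    ∃ N, PV (q :: r :: x :: w :: (D' ++ [d2, d1, q'])) (q' :: d2 :: d1 :: (D' ++ [w, r, q, x])) N ∧
      (∀ j, j ≤ D'.length →
        Avoid N (insert q (insert r (insert d2 (insert d1 (D'.take j).toFinset))))) ∧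
      Avoid N {q, r, d1} ∧
      Avoid N ((q' :: q :: r :: x :: w :: d1 :: d2 :: D').toFinset \ {w}) ∧
      Avoid N ((q' :: q :: r :: x :: w :: d1 :: d2 :: D').toFinset \ {w, x}) ∧
      Avoid N ((q' :: q :: r :: x :: w :: d1 :: d2 :: D').toFinset \ {w, q'}) := by
  have hc := List.nodup_iff_count_le_one.1 hnd
  simp only [List.count_cons] at hc
  have hnd2 := hnd
  simp only [List.nodup_cons, List.mem_cons, not_or] at hnd2
  obtain ⟨N2, hN2⟩ : ∃ L, PV (q :: r :: x :: w :: (D' ++ [d2]))
      (d2 :: q :: r :: (D' ++ [w, x])) L := by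
    obtain ⟨D0, dL, rfl⟩ := List.eq_nil_or_concat' D' |>.resolve_left (by rintro rfl; simp at hD)
    simp only [List.mem_append, List.mem_singleton, not_or] at hnd2
    simp only [List.count_append, List.count_cons, List.count_nil] at hc
    refine univ' (q :: r :: x :: w :: D0) (r :: (D0 ++ [dL] ++ [w, x])) dL d2 q
      (by simp) rfl (by simp at hD ⊢; omega) ?_ ?_ (by tauto)
    · (rw [List.nodup_iff_count_le_one]; intro z; have := hc z; simp only [List.count_append, List.count_cons, List.count_nil] at *; omega)
    · (rw [List.perm_iff_count]; intro z; simp only [List.count_append, List.count_cons, List.count_nil]; omega)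
  obtain ⟨Y2, hY2⟩ : ∃ L, PV (d2 :: q :: r :: (D' ++ [w, x]))
      (x :: q :: r :: (D' ++ [w, d2])) L := by
    refine univ' (d2 :: q :: r :: D') (r :: (D' ++ [w, d2])) w x q
      (by simp) rfl (by simp; omega) ?_ ?_ (by tauto)
    · (rw [List.nodup_iff_count_le_one]; intro z; have := hc z; simp only [List.count_append, List.count_cons, List.count_nil] at *; omega)
    · (rw [List.perm_iff_count]; intro z; simp only [List.count_append, List.count_cons, List.count_nil]; omega)
  have hd1 : d1 ∉ q :: r :: x :: w :: (D' ++ [d2]) := by (simp only [Finset.mem_erase, Finset.mem_sdiff, List.mem_toFinset, List.mem_cons, List.mem_append, List.not_mem_nil, or_false, Finset.mem_insert, Finset.mem_singleton, ne_eq, not_or, Finset.mem_union]; clear * - hnd2; grind)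
  have hN1 : PV (q :: r :: x :: w :: (D' ++ [d2, d1])) (d1 :: x :: q :: r :: (D' ++ [w, d2]))
      (comp d1 N2 Y2) := comp' hN2 hY2 (by simp) rfl hd1 (by simp)
  obtain ⟨Y1, hY1⟩ : ∃ L, PV (d1 :: x :: q :: r :: (D' ++ [w, d2]))
      (d2 :: d1 :: (D' ++ [w, r, q, x])) L := by
    refine univ' (d1 :: x :: q :: r :: D') (D' ++ [w, r, q, x]) w d2 d1
      (by simp) rfl (by simp; omega) ?_ ?_ (by tauto)
    · (rw [List.nodup_iff_count_le_one]; intro z; have := hc z; simp only [List.count_append, List.count_cons, List.count_nil] at *; omega)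
    · (rw [List.perm_iff_count]; intro z; simp only [List.count_append, List.count_cons, List.count_nil]; omega)
  have hq' : q' ∉ q :: r :: x :: w :: (D' ++ [d2, d1]) := by (simp only [Finset.mem_erase, Finset.mem_sdiff, List.mem_toFinset, List.mem_cons, List.mem_append, List.not_mem_nil, or_false, Finset.mem_insert, Finset.mem_singleton, ne_eq, not_or, Finset.mem_union]; clear * - hnd2; grind)
  have hq't : ∀ j, q' ∉ D'.take j := fun j h => hnd2.1.2.2.2.2.2.2 (List.mem_of_mem_take h)
  have hd1t : ∀ j, d1 ∉ D'.take j := fun j h =>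
    hnd2.2.2.2.2.2.1.2 (List.mem_of_mem_take h)
  refine ⟨comp q' (comp d1 N2 Y2) Y1, comp' hN1 hY1 (by simp) rfl hq' (by simp),
    ?_, ?_, ?_, ?_, ?_⟩
  · intro j hj
    refine avoid_comp_of_not_mem ?_ ?_
    · have := hq't j
      simp only [Finset.mem_insert, List.mem_toFinset]
      tauto
    · refine av_mem (insert q (insert r (insert d2 (D'.take j).toFinset))) hN2 hY2 hd1 ?_ ?_ ?_
      · simp
      · refine av_congr (hY2.avoid_head (j + 2)) ?_
        have : List.take (j + 2 + 1) (d2 :: q :: r :: (D' ++ [w, x])) =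
            d2 :: q :: r :: D'.take j := by
          simp [List.take_append_of_le_length hj]
        rw [this]
        ext z
        simp only [Finset.mem_insert, List.mem_toFinset, List.mem_cons]
        tauto
      · have h3 := hd1t j
        ext z
        simp only [Finset.mem_insert, List.mem_toFinset, Finset.mem_erase]
        clear * - hnd2 h3
        grind
  · refine avoid_comp_of_not_mem (by (simp only [Finset.mem_erase, Finset.mem_sdiff, List.mem_toFinset, List.mem_cons, List.mem_append, List.not_mem_nil, or_false, Finset.mem_insert, Finset.mem_singleton, ne_eq, not_or, Finset.mem_union]; clear * - hnd2; grind)) ?_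
    refine av_mem {q, r} hN2 hY2 hd1 (by simp) ?_ (by (ext z; simp only [Finset.mem_erase, Finset.mem_sdiff, List.mem_toFinset, List.mem_cons, List.mem_append, List.not_mem_nil, or_false, Finset.mem_insert, Finset.mem_singleton, ne_eq, not_or, Finset.mem_union]; clear * - hnd2; grind))
    exact hY2.avoid_h2
  · refine av_mem ((d1 :: x :: q :: r :: (D' ++ [w, d2])).toFinset \ {w}) hN1 hY1 hq' ?_ ?_ ?_
    · (simp only [Finset.mem_erase, Finset.mem_sdiff, List.mem_toFinset, List.mem_cons, List.mem_append, List.not_mem_nil, or_false, Finset.mem_insert, Finset.mem_singleton, ne_eq, not_or, Finset.mem_union]; clear * - hnd2; grind)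
    · exact PV.avoid_top (a0 := d2 :: d1 :: (D' ++ [w, r, q])) (v := x) (by simpa using hY1)
        (by tauto)
    · (ext z; simp only [Finset.mem_erase, Finset.mem_sdiff, List.mem_toFinset, List.mem_cons, List.mem_append, List.not_mem_nil, or_false, Finset.mem_insert, Finset.mem_singleton, ne_eq, not_or, Finset.mem_union]; clear * - hnd2; grind)
  · refine av_mem ((d1 :: x :: q :: r :: (D' ++ [w, d2])).toFinset \ {w, x}) hN1 hY1 hq' ?_ ?_ ?_
    · (simp only [Finset.mem_erase, Finset.mem_sdiff, List.mem_toFinset, List.mem_cons, List.mem_append, List.not_mem_nil, or_false, Finset.mem_insert, Finset.mem_singleton, ne_eq, not_or, Finset.mem_union]; clear * - hnd2; grind)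
    · exact PV.avoid_top1 (a0 := d2 :: d1 :: (D' ++ [w, r])) (u := q) (v := x)
        (by simpa using hY1) (by simp) (by tauto) (by tauto)
    · (ext z; simp only [Finset.mem_erase, Finset.mem_sdiff, List.mem_toFinset, List.mem_cons, List.mem_append, List.not_mem_nil, or_false, Finset.mem_insert, Finset.mem_singleton, ne_eq, not_or, Finset.mem_union]; clear * - hnd2; grind)
  · refine avoid_comp_of_not_mem (by (simp only [Finset.mem_erase, Finset.mem_sdiff, List.mem_toFinset, List.mem_cons, List.mem_append, List.not_mem_nil, or_false, Finset.mem_insert, Finset.mem_singleton, ne_eq, not_or, Finset.mem_union]; clear * - hnd2; grind)) ?_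
    refine av_mem ((d2 :: q :: r :: (D' ++ [w, x])).toFinset \ {w}) hN2 hY2 hd1 ?_ ?_ ?_
    · (simp only [Finset.mem_erase, Finset.mem_sdiff, List.mem_toFinset, List.mem_cons, List.mem_append, List.not_mem_nil, or_false, Finset.mem_insert, Finset.mem_singleton, ne_eq, not_or, Finset.mem_union]; clear * - hnd2; grind)
    · exact PV.avoid_top (a0 := x :: q :: r :: (D' ++ [w])) (v := d2) (by simpa using hY2)
        (by tauto)
    · (ext z; simp only [Finset.mem_erase, Finset.mem_sdiff, List.mem_toFinset, List.mem_cons, List.mem_append, List.not_mem_nil, or_false, Finset.mem_insert, Finset.mem_singleton, ne_eq, not_or, Finset.mem_union]; clear * - hnd2; grind)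

theorem npart_first {q r q' x w d1 d2 : ℕ} {D' b3 : List ℕ}
    (hnd : (q' :: q :: r :: x :: w :: d1 :: d2 :: D').Nodup) (hD : 3 ≤ D'.length)
    (hb : b3.Perm (r :: x :: w :: d2 :: D')) (hbl : b3.getLast? ≠ some r) :
    ∃ N, PV (b3 ++ [d1, q, q']) (q' :: d2 :: d1 :: (D' ++ [w, r, q, x])) N ∧
      (∀ j, j ≤ D'.length →
        Avoid N (insert q (insert r (insert d2 (insert d1 (D'.take j).toFinset))))) ∧
      Avoid N {q, r, d1} ∧
      Avoid N ((q' :: q :: r :: x :: w :: d1 :: d2 :: D').toFinset \ {w, q'}) := by
  have hbc : ∀ z, b3.count z = (r :: x :: w :: d2 :: D').count z := fun z => hb.count_eq z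
  simp only [List.count_cons] at hbc
  have hc := List.nodup_iff_count_le_one.1 hnd
  simp only [List.count_cons] at hc
  have hnd2 := hnd
  simp only [List.nodup_cons, List.mem_cons, not_or] at hnd2
  have hbm : ∀ z, z ∈ b3 ↔ z ∈ r :: x :: w :: d2 :: D' := fun z => hb.mem_iff
  obtain ⟨N2, hN2⟩ : ∃ L, PV (b3 ++ [d1]) (d1 :: r :: d2 :: (D' ++ [w, x])) L := by
    obtain ⟨b0, u, rfl⟩ := List.eq_nil_or_concat' b3 |>.resolve_left
      (by rintro rfl; simpa using hb.length_eq)
    have hlen := hb.length_eq
    simp only [List.length_append, List.length_cons, List.length_nil] at hlen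
    simp only [List.getLast?_concat, ne_eq, Option.some.injEq] at hbl
    simp only [List.count_append, List.count_cons, List.count_nil] at hbc
    refine univ' b0 (d2 :: (D' ++ [w, x])) u d1 r
      (by simp) rfl (by omega) ?_ ?_ hbl
    · rw [List.nodup_iff_count_le_one]; intro z; have h1 := hc z; have h2 := hbc z
      simp only [List.count_append, List.count_cons, List.count_nil]; omega
    · rw [List.perm_iff_count]; intro z; have h2 := hbc z
      simp only [List.count_append, List.count_cons, List.count_nil]; omega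
  obtain ⟨Y2, hY2⟩ : ∃ L, PV (d1 :: r :: d2 :: (D' ++ [w, x]))
      (x :: d1 :: r :: (D' ++ [w, d2])) L := by
    refine univ' (d1 :: r :: d2 :: D') (r :: (D' ++ [w, d2])) w x d1
      (by simp) rfl (by simp; omega) ?_ ?_ (by tauto)
    · (rw [List.nodup_iff_count_le_one]; intro z; have := hc z; simp only [List.count_append, List.count_cons, List.count_nil] at *; omega)
    · (rw [List.perm_iff_count]; intro z; simp only [List.count_append, List.count_cons, List.count_nil]; omega)
  have hq : q ∉ b3 ++ [d1] := by
    rw [List.mem_append, hbm]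
    (simp only [Finset.mem_erase, Finset.mem_sdiff, List.mem_toFinset, List.mem_cons, List.mem_append, List.not_mem_nil, or_false, Finset.mem_insert, Finset.mem_singleton, ne_eq, not_or, Finset.mem_union]; clear * - hnd2; grind)
  have hN1 : PV (b3 ++ [d1, q]) (q :: x :: d1 :: r :: (D' ++ [w, d2]))
      (comp q N2 Y2) := comp' hN2 hY2 (by simp) rfl hq (by simp)
  obtain ⟨Y1, hY1⟩ : ∃ L, PV (q :: x :: d1 :: r :: (D' ++ [w, d2]))
      (d2 :: d1 :: (D' ++ [w, r, q, x])) L := by
    refine univ' (q :: x :: d1 :: r :: D') (D' ++ [w, r, q, x]) w d2 d1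
      (by simp) rfl (by simp; omega) ?_ ?_ (by tauto)
    · (rw [List.nodup_iff_count_le_one]; intro z; have := hc z; simp only [List.count_append, List.count_cons, List.count_nil] at *; omega)
    · (rw [List.perm_iff_count]; intro z; simp only [List.count_append, List.count_cons, List.count_nil]; omega)
  have hq' : q' ∉ b3 ++ [d1, q] := by
    rw [List.mem_append, hbm]
    (simp only [Finset.mem_erase, Finset.mem_sdiff, List.mem_toFinset, List.mem_cons, List.mem_append, List.not_mem_nil, or_false, Finset.mem_insert, Finset.mem_singleton, ne_eq, not_or, Finset.mem_union]; clear * - hnd2; grind)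
  have hq't : ∀ j, q' ∉ D'.take j := fun j h => hnd2.1.2.2.2.2.2.2 (List.mem_of_mem_take h)
  have hqt : ∀ j, q ∉ D'.take j := fun j h =>
    hnd2.2.1.2.2.2.2.2 (List.mem_of_mem_take h)
  refine ⟨comp q' (comp q N2 Y2) Y1, comp' hN1 hY1 (by simp) rfl hq' (by simp),
    ?_, ?_, ?_⟩
  · intro j hj
    refine avoid_comp_of_not_mem ?_ ?_
    · have := hq't j
      simp only [Finset.mem_insert, List.mem_toFinset]
      tauto
    · refine av_mem (insert r (insert d2 (insert d1 (D'.take j).toFinset))) hN2 hY2 hq ?_ ?_ ?_
      · simp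
      · refine av_congr (hY2.avoid_head (j + 2)) ?_
        have : List.take (j + 2 + 1) (d1 :: r :: d2 :: (D' ++ [w, x])) =
            d1 :: r :: d2 :: D'.take j := by
          simp [List.take_append_of_le_length hj]
        rw [this]
        ext z
        simp only [Finset.mem_insert, List.mem_toFinset, List.mem_cons]
        tauto
      · have h3 := hqt j
        ext z
        simp only [Finset.mem_insert, List.mem_toFinset, Finset.mem_erase]
        clear * - hnd2 h3
        grind
  · refine avoid_comp_of_not_mem (by (simp only [Finset.mem_erase, Finset.mem_sdiff, List.mem_toFinset, List.mem_cons, List.mem_append, List.not_mem_nil, or_false, Finset.mem_insert, Finset.mem_singleton, ne_eq, not_or, Finset.mem_union]; clear * - hnd2; grind)) ?_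
    refine av_mem {d1, r} hN2 hY2 hq (by simp) ?_ (by (ext z; simp only [Finset.mem_erase, Finset.mem_sdiff, List.mem_toFinset, List.mem_cons, List.mem_append, List.not_mem_nil, or_false, Finset.mem_insert, Finset.mem_singleton, ne_eq, not_or, Finset.mem_union]; clear * - hnd2; grind))
    refine av_congr (hY2.avoid_head 1) (by simp)
  · refine avoid_comp_of_not_mem (by (simp only [Finset.mem_erase, Finset.mem_sdiff, List.mem_toFinset, List.mem_cons, List.mem_append, List.not_mem_nil, or_false, Finset.mem_insert, Finset.mem_singleton, ne_eq, not_or, Finset.mem_union]; clear * - hnd2; grind)) ?_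
    refine av_mem ((d1 :: r :: d2 :: (D' ++ [w, x])).toFinset \ {w}) hN2 hY2 hq ?_ ?_ ?_
    · (simp only [Finset.mem_erase, Finset.mem_sdiff, List.mem_toFinset, List.mem_cons, List.mem_append, List.not_mem_nil, or_false, Finset.mem_insert, Finset.mem_singleton, ne_eq, not_or, Finset.mem_union]; clear * - hnd2; grind)
    · exact PV.avoid_top (a0 := x :: d1 :: r :: (D' ++ [w])) (v := d2) (by simpa using hY2)
        (by tauto)
    · (ext z; simp only [Finset.mem_erase, Finset.mem_sdiff, List.mem_toFinset, List.mem_cons, List.mem_append, List.not_mem_nil, or_false, Finset.mem_insert, Finset.mem_singleton, ne_eq, not_or, Finset.mem_union]; clear * - hnd2; grind)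

theorem low_marks {q r q' r' x w d1 d2 : ℕ} {D' bN c a : List ℕ} {N Y : Fam} (nodd : Bool)
    (Ap l : ℕ)
    (hnd : (q' :: r' :: q :: r :: x :: w :: d1 :: d2 :: D').Nodup)
    (hN : PV bN c N) (hY : PV c a Y) (hr' : r' ∉ bN)
    (hN2 : ∀ j, j ≤ D'.length →
        Avoid N (insert q (insert r (insert d2 (insert d1 (D'.take j).toFinset)))))
    (hN1 : Avoid N {q, r, d1})
    (hY2 : ∀ j, j ≤ D'.length → Avoid Y (insert q' (insert d2 (insert d1 (D'.take j).toFinset))))
    (hY1 : Avoid Y {q'}) (hl : 1 ≤ l) (hl2 : l ≤ D'.length + 3) :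
    Avoid (comp r' N Y) (Pk nodd q' r' q r x w Ap (d1 :: d2 :: D') l) := by
  have hnd2 := hnd
  simp only [List.nodup_cons, List.mem_cons, not_or] at hnd2
  have hr't : ∀ j, r' ∉ D'.take j := fun j h => hnd2.2.1.2.2.2.2.2.2 (List.mem_of_mem_take h)
  obtain ⟨j, rfl⟩ : ∃ j, l = j + 1 := ⟨l - 1, by omega⟩
  have hPk : Pk nodd q' r' q r x w Ap (d1 :: d2 :: D') (j + 1) =
      ((d1 :: d2 :: D').take j).toFinset ∪ (if j % 2 = 0 then {q', r'} else {q, r}) := by
    simp only [Pk, List.length_cons, Nat.add_sub_cancel]
    rw [if_pos (by omega)]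
  rw [hPk]
  rcases j with _ | _ | j
  · rw [if_pos (by norm_num)]
    refine av_mem {q'} hN hY hr' (by simp) hY1 ?_
    simp only [List.take_zero, List.toFinset_nil, Finset.empty_union]
    (ext z; simp only [Finset.mem_erase, Finset.mem_sdiff, List.mem_toFinset, List.mem_cons, List.mem_append, List.not_mem_nil, or_false, Finset.mem_insert, Finset.mem_singleton, ne_eq, not_or, Finset.mem_union]; clear * - hnd2; grind)
  · rw [if_neg (by norm_num)]
    refine avoid_comp_of_not_mem ?_ (av_congr hN1 ?_)
    · simp only [List.take_succ_cons, List.take_zero, zero_add]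
      (simp only [Finset.mem_erase, Finset.mem_sdiff, List.mem_toFinset, List.mem_cons, List.mem_append, List.not_mem_nil, or_false, Finset.mem_insert, Finset.mem_singleton, ne_eq, not_or, Finset.mem_union]; clear * - hnd2; grind)
    · simp only [List.take_succ_cons, List.take_zero, zero_add]
      (ext z; simp only [Finset.mem_erase, Finset.mem_sdiff, List.mem_toFinset, List.mem_cons, List.mem_append, List.not_mem_nil, or_false, Finset.mem_insert, Finset.mem_singleton, ne_eq, not_or, Finset.mem_union]; clear * - hnd2; grind)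
  · have h3 := hr't j
    simp only [List.take_succ_cons]
    split_ifs with hj
    · refine av_mem (insert q' (insert d2 (insert d1 (D'.take j).toFinset))) hN hY hr' (by simp)
        (hY2 j (by omega)) ?_
      ext z
      simp only [Finset.mem_insert, List.mem_toFinset, Finset.mem_erase, Finset.mem_union,
        List.mem_cons, Finset.mem_singleton]
      clear * - hnd2 h3
      grind
    · refine avoid_comp_of_not_mem ?_ (av_congr (hN2 j (by omega)) ?_)
      · simp only [Finset.mem_insert, List.mem_toFinset, Finset.mem_union,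
          List.mem_cons, Finset.mem_singleton]
        clear * - hnd2 h3
        grind
      · ext z
        simp only [Finset.mem_insert, List.mem_toFinset, Finset.mem_union,
          List.mem_cons, Finset.mem_singleton]
        tauto

end VG

/-- the general construction -/
theorem vgen (nodd : Bool) {q r q' r' x w d1 d2 : ℕ} {D' a' : List ℕ}
    (hnd : (q' :: r' :: q :: r :: x :: w :: d1 :: d2 :: D').Nodup) (hD : 3 ≤ D'.length)
    (ha : a'.Perm (d2 :: D')) {Ap : ℕ} (hAp : Ap = r' ∨ Ap = r) :
    ∃ L, PV ([q, r, x, w] ++ D' ++ [d2, d1, q', r']) ([r', x, q', w] ++ a' ++ [q, r, d1]) L ∧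
      ∀ l, 1 ≤ l → l ≤ topT nodd (d1 :: d2 :: D') →
        Avoid L (Pk nodd q' r' q r x w Ap (d1 :: d2 :: D') l) := by
  have hnd2 := hnd
  simp only [List.nodup_cons, List.mem_cons, not_or] at hnd2
  have hnd' : (q' :: q :: r :: x :: w :: d1 :: d2 :: D').Nodup := by
    simp only [List.nodup_cons, List.mem_cons, not_or]
    tauto
  obtain ⟨N, hN, hN2, hN1, hN4, hN5, hN6⟩ := VG.npart_gen hnd' hD
  have hr' : r' ∉ q :: r :: x :: w :: (D' ++ [d2, d1, q']) := by (simp only [Finset.mem_erase, Finset.mem_sdiff, List.mem_toFinset, List.mem_cons, List.mem_append, List.not_mem_nil, or_false, Finset.mem_insert, Finset.mem_singleton, ne_eq, not_or, Finset.mem_union]; clear * - hnd2; grind)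
  by_cases hcase : nodd = false ∧ Ap = r'
  · obtain ⟨hn, rfl⟩ := hcase
    subst hn
    obtain ⟨Y, hY, hY2, hY1, hY6⟩ := VG.ypart2 hnd' hD ha
    refine ⟨comp Ap N Y, VG.comp' hN hY (by simp) (by simp) hr' (by simp), ?_⟩
    intro l hl hl2
    rcases Nat.lt_or_ge (D'.length + 3) l with h | h
    swap
    · exact VG.low_marks _ _ _ hnd hN hY hr' hN2 hN1 hY2 hY1 hl h
    simp only [topT, List.length_cons, Bool.false_eq_true, if_false, Nat.add_zero] at hl2
    have hzz : zz Ap q' Ap q r = {q, r} := by
      have h1 : ¬ (Ap = r ∨ Ap = q) := by tauto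
      simp [zz, h1]
    have hl3 : l = D'.length + 4 ∨ l = D'.length + 5 := by omega
    rcases hl3 with rfl | rfl
    · have hPk : Pk false q' Ap q r x w Ap (d1 :: d2 :: D') (D'.length + 4) =
          (q' :: Ap :: q :: r :: x :: w :: d1 :: d2 :: D').toFinset \ (insert w {q, r}) := by
        simp [Pk, hzz]
      rw [hPk]
      refine VG.av_mem _ hN hY hr' ?_ hY6 ?_
      · (simp only [Finset.mem_erase, Finset.mem_sdiff, List.mem_toFinset, List.mem_cons, List.mem_append, List.not_mem_nil, or_false, Finset.mem_insert, Finset.mem_singleton, ne_eq, not_or, Finset.mem_union]; clear * - hnd2; grind)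
      · (ext z; simp only [Finset.mem_erase, Finset.mem_sdiff, List.mem_toFinset, List.mem_cons, List.mem_append, List.not_mem_nil, or_false, Finset.mem_insert, Finset.mem_singleton, ne_eq, not_or, Finset.mem_union]; clear * - hnd2; grind)
    · have hPk : Pk false q' Ap q r x w Ap (d1 :: d2 :: D') (D'.length + 5) =
          (q' :: Ap :: q :: r :: x :: w :: d1 :: d2 :: D').toFinset \ {Ap, w} := by
        simp [Pk]
      rw [hPk]
      refine avoid_comp_of_not_mem ?_ (VG.av_congr hN4 ?_)
      · (simp only [Finset.mem_erase, Finset.mem_sdiff, List.mem_toFinset, List.mem_cons, List.mem_append, List.not_mem_nil, or_false, Finset.mem_insert, Finset.mem_singleton, ne_eq, not_or, Finset.mem_union]; clear * - hnd2; grind)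
      · (ext z; simp only [Finset.mem_erase, Finset.mem_sdiff, List.mem_toFinset, List.mem_cons, List.mem_append, List.not_mem_nil, or_false, Finset.mem_insert, Finset.mem_singleton, ne_eq, not_or, Finset.mem_union]; clear * - hnd2; grind)
  · obtain ⟨Y, hY, hY2, hY1, hY3, hY4, hY5⟩ := VG.ypart1 hnd' hD ha
    refine ⟨comp r' N Y, VG.comp' hN hY (by simp) (by simp) hr' (by simp), ?_⟩
    intro l hl hl2
    rcases Nat.lt_or_ge (D'.length + 3) l with h | h
    swap
    · exact VG.low_marks _ _ _ hnd hN hY hr' hN2 hN1 hY2 hY1 hl h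
    -- the mark `S \ {Ap, w}`
    have hA : Avoid (comp r' N Y)
        ((q' :: r' :: q :: r :: x :: w :: d1 :: d2 :: D').toFinset \ {Ap, w}) := by
      rcases hAp with rfl | rfl
      · refine avoid_comp_of_not_mem ?_ (VG.av_congr hN4 ?_)
        · (simp only [Finset.mem_erase, Finset.mem_sdiff, List.mem_toFinset, List.mem_cons, List.mem_append, List.not_mem_nil, or_false, Finset.mem_insert, Finset.mem_singleton, ne_eq, not_or, Finset.mem_union]; clear * - hnd2; grind)
        · (ext z; simp only [Finset.mem_erase, Finset.mem_sdiff, List.mem_toFinset, List.mem_cons, List.mem_append, List.not_mem_nil, or_false, Finset.mem_insert, Finset.mem_singleton, ne_eq, not_or, Finset.mem_union]; clear * - hnd2; grind)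
      · refine VG.av_mem _ hN hY hr' ?_ hY4 ?_
        · (simp only [Finset.mem_erase, Finset.mem_sdiff, List.mem_toFinset, List.mem_cons, List.mem_append, List.not_mem_nil, or_false, Finset.mem_insert, Finset.mem_singleton, ne_eq, not_or, Finset.mem_union]; clear * - hnd2; grind)
        · (ext z; simp only [Finset.mem_erase, Finset.mem_sdiff, List.mem_toFinset, List.mem_cons, List.mem_append, List.not_mem_nil, or_false, Finset.mem_insert, Finset.mem_singleton, ne_eq, not_or, Finset.mem_union]; clear * - hnd2; grind)
    cases nodd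
    · have hAr : Ap = r := by
        rcases hAp with h1 | h1
        · exact absurd ⟨rfl, h1⟩ hcase
        · exact h1
      subst hAr
      simp only [topT, List.length_cons, Bool.false_eq_true, if_false, Nat.add_zero] at hl2
      have hzz : zz Ap q' r' q Ap = {q', r'} := by
        simp [zz]
      have hl3 : l = D'.length + 4 ∨ l = D'.length + 5 := by omega
      rcases hl3 with rfl | rfl
      · have hPk : Pk false q' r' q Ap x w Ap (d1 :: d2 :: D') (D'.length + 4) =
            (q' :: r' :: q :: Ap :: x :: w :: d1 :: d2 :: D').toFinset \ (insert w {q', r'}) := by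
          simp [Pk, hzz]
        rw [hPk]
        refine avoid_comp_of_not_mem ?_ (VG.av_congr hN6 ?_)
        · (simp only [Finset.mem_erase, Finset.mem_sdiff, List.mem_toFinset, List.mem_cons, List.mem_append, List.not_mem_nil, or_false, Finset.mem_insert, Finset.mem_singleton, ne_eq, not_or, Finset.mem_union]; clear * - hnd2; grind)
        · (ext z; simp only [Finset.mem_erase, Finset.mem_sdiff, List.mem_toFinset, List.mem_cons, List.mem_append, List.not_mem_nil, or_false, Finset.mem_insert, Finset.mem_singleton, ne_eq, not_or, Finset.mem_union]; clear * - hnd2; grind)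
      · have hPk : Pk false q' r' q Ap x w Ap (d1 :: d2 :: D') (D'.length + 5) =
            (q' :: r' :: q :: Ap :: x :: w :: d1 :: d2 :: D').toFinset \ {Ap, w} := by
          simp [Pk]
        rw [hPk]
        exact hA
    · simp only [topT, List.length_cons, if_true] at hl2
      have hl3 : l = D'.length + 4 ∨ l = D'.length + 5 ∨ l = D'.length + 6 := by omega
      rcases hl3 with rfl | rfl | rfl
      · have hPk : Pk true q' r' q r x w Ap (d1 :: d2 :: D') (D'.length + 4) =
            (q' :: r' :: q :: r :: x :: w :: d1 :: d2 :: D').toFinset \ {Ap, x, w} := by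
          simp [Pk]
        rw [hPk]
        rcases hAp with rfl | rfl
        · refine avoid_comp_of_not_mem ?_ (VG.av_congr hN5 ?_)
          · (simp only [Finset.mem_erase, Finset.mem_sdiff, List.mem_toFinset, List.mem_cons, List.mem_append, List.not_mem_nil, or_false, Finset.mem_insert, Finset.mem_singleton, ne_eq, not_or, Finset.mem_union]; clear * - hnd2; grind)
          · (ext z; simp only [Finset.mem_erase, Finset.mem_sdiff, List.mem_toFinset, List.mem_cons, List.mem_append, List.not_mem_nil, or_false, Finset.mem_insert, Finset.mem_singleton, ne_eq, not_or, Finset.mem_union]; clear * - hnd2; grind)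
        · refine VG.av_mem _ hN hY hr' ?_ hY5 ?_
          · (simp only [Finset.mem_erase, Finset.mem_sdiff, List.mem_toFinset, List.mem_cons, List.mem_append, List.not_mem_nil, or_false, Finset.mem_insert, Finset.mem_singleton, ne_eq, not_or, Finset.mem_union]; clear * - hnd2; grind)
          · (ext z; simp only [Finset.mem_erase, Finset.mem_sdiff, List.mem_toFinset, List.mem_cons, List.mem_append, List.not_mem_nil, or_false, Finset.mem_insert, Finset.mem_singleton, ne_eq, not_or, Finset.mem_union]; clear * - hnd2; grind)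
      · have hPk : Pk true q' r' q r x w Ap (d1 :: d2 :: D') (D'.length + 5) =
            (q' :: r' :: q :: r :: x :: w :: d1 :: d2 :: D').toFinset \ {Ap, w} := by
          simp [Pk]
        rw [hPk]
        exact hA
      · have hPk : Pk true q' r' q r x w Ap (d1 :: d2 :: D') (D'.length + 6) =
            (q' :: r' :: q :: r :: x :: w :: d1 :: d2 :: D').toFinset \ {w} := by
          simp [Pk]
        rw [hPk]
        refine VG.av_mem _ hN hY hr' ?_ hY3 ?_
        · (simp only [Finset.mem_erase, Finset.mem_sdiff, List.mem_toFinset, List.mem_cons, List.mem_append, List.not_mem_nil, or_false, Finset.mem_insert, Finset.mem_singleton, ne_eq, not_or, Finset.mem_union]; clear * - hnd2; grind)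
        · (ext z; simp only [Finset.mem_erase, Finset.mem_sdiff, List.mem_toFinset, List.mem_cons, List.mem_append, List.not_mem_nil, or_false, Finset.mem_insert, Finset.mem_singleton, ne_eq, not_or, Finset.mem_union]; clear * - hnd2; grind)

/-- the first construction (plain start) -/
theorem vfirst (nodd : Bool) {q r q' r' x w d1 d2 : ℕ} {D' a' b3 : List ℕ}
    (hnd : (q' :: r' :: q :: r :: x :: w :: d1 :: d2 :: D').Nodup) (hD : 3 ≤ D'.length)
    (ha : a'.Perm (d2 :: D')) (hb : b3.Perm (r :: x :: w :: d2 :: D'))
    (hbl : b3.getLast? ≠ some r) :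
    ∃ L, PV (b3 ++ [d1, q, q', r']) ([r', x, q', w] ++ a' ++ [q, r, d1]) L ∧
      ∀ l, 1 ≤ l → l ≤ topT nodd (d1 :: d2 :: D') →
        Avoid L (Pk nodd q' r' q r x w r (d1 :: d2 :: D') l) := by
  have hnd2 := hnd
  simp only [List.nodup_cons, List.mem_cons, not_or] at hnd2
  have hnd' : (q' :: q :: r :: x :: w :: d1 :: d2 :: D').Nodup := by
    simp only [List.nodup_cons, List.mem_cons, not_or]
    tauto
  obtain ⟨N, hN, hN2, hN1, hN6⟩ := VG.npart_first hnd' hD hb hbl
  have hr' : r' ∉ b3 ++ [d1, q, q'] := by
    rw [List.mem_append, hb.mem_iff]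
    (simp only [Finset.mem_erase, Finset.mem_sdiff, List.mem_toFinset, List.mem_cons, List.mem_append, List.not_mem_nil, or_false, Finset.mem_insert, Finset.mem_singleton, ne_eq, not_or, Finset.mem_union]; clear * - hnd2; grind)
  obtain ⟨Y, hY, hY2, hY1, hY3, hY4, hY5⟩ := VG.ypart1 hnd' hD ha
  refine ⟨comp r' N Y, VG.comp' hN hY (by simp) (by simp) hr' (by simp), ?_⟩
  intro l hl hl2
  rcases Nat.lt_or_ge (D'.length + 3) l with h | h
  swap
  · exact VG.low_marks _ _ _ hnd hN hY hr' hN2 hN1 hY2 hY1 hl h
  have hA : Avoid (comp r' N Y)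
      ((q' :: r' :: q :: r :: x :: w :: d1 :: d2 :: D').toFinset \ {r, w}) := by
    refine VG.av_mem _ hN hY hr' ?_ hY4 ?_
    · (simp only [Finset.mem_erase, Finset.mem_sdiff, List.mem_toFinset, List.mem_cons, List.mem_append, List.not_mem_nil, or_false, Finset.mem_insert, Finset.mem_singleton, ne_eq, not_or, Finset.mem_union]; clear * - hnd2; grind)
    · (ext z; simp only [Finset.mem_erase, Finset.mem_sdiff, List.mem_toFinset, List.mem_cons, List.mem_append, List.not_mem_nil, or_false, Finset.mem_insert, Finset.mem_singleton, ne_eq, not_or, Finset.mem_union]; clear * - hnd2; grind)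
  cases nodd
  · simp only [topT, List.length_cons, Bool.false_eq_true, if_false, Nat.add_zero] at hl2
    have hzz : zz r q' r' q r = {q', r'} := by
      simp [zz]
    have hl3 : l = D'.length + 4 ∨ l = D'.length + 5 := by omega
    rcases hl3 with rfl | rfl
    · have hPk : Pk false q' r' q r x w r (d1 :: d2 :: D') (D'.length + 4) =
          (q' :: r' :: q :: r :: x :: w :: d1 :: d2 :: D').toFinset \ (insert w {q', r'}) := by
        simp [Pk, hzz]
      rw [hPk]
      refine avoid_comp_of_not_mem ?_ (VG.av_congr hN6 ?_)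
      · (simp only [Finset.mem_erase, Finset.mem_sdiff, List.mem_toFinset, List.mem_cons, List.mem_append, List.not_mem_nil, or_false, Finset.mem_insert, Finset.mem_singleton, ne_eq, not_or, Finset.mem_union]; clear * - hnd2; grind)
      · (ext z; simp only [Finset.mem_erase, Finset.mem_sdiff, List.mem_toFinset, List.mem_cons, List.mem_append, List.not_mem_nil, or_false, Finset.mem_insert, Finset.mem_singleton, ne_eq, not_or, Finset.mem_union]; clear * - hnd2; grind)
    · have hPk : Pk false q' r' q r x w r (d1 :: d2 :: D') (D'.length + 5) =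
          (q' :: r' :: q :: r :: x :: w :: d1 :: d2 :: D').toFinset \ {r, w} := by
        simp [Pk]
      rw [hPk]
      exact hA
  · simp only [topT, List.length_cons, if_true] at hl2
    have hl3 : l = D'.length + 4 ∨ l = D'.length + 5 ∨ l = D'.length + 6 := by omega
    rcases hl3 with rfl | rfl | rfl
    · have hPk : Pk true q' r' q r x w r (d1 :: d2 :: D') (D'.length + 4) =
          (q' :: r' :: q :: r :: x :: w :: d1 :: d2 :: D').toFinset \ {r, x, w} := by
        simp [Pk]
      rw [hPk]
      refine VG.av_mem _ hN hY hr' ?_ hY5 ?_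
      · (simp only [Finset.mem_erase, Finset.mem_sdiff, List.mem_toFinset, List.mem_cons, List.mem_append, List.not_mem_nil, or_false, Finset.mem_insert, Finset.mem_singleton, ne_eq, not_or, Finset.mem_union]; clear * - hnd2; grind)
      · (ext z; simp only [Finset.mem_erase, Finset.mem_sdiff, List.mem_toFinset, List.mem_cons, List.mem_append, List.not_mem_nil, or_false, Finset.mem_insert, Finset.mem_singleton, ne_eq, not_or, Finset.mem_union]; clear * - hnd2; grind)
    · have hPk : Pk true q' r' q r x w r (d1 :: d2 :: D') (D'.length + 5) =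
          (q' :: r' :: q :: r :: x :: w :: d1 :: d2 :: D').toFinset \ {r, w} := by
        simp [Pk]
      rw [hPk]
      exact hA
    · have hPk : Pk true q' r' q r x w r (d1 :: d2 :: D') (D'.length + 6) =
          (q' :: r' :: q :: r :: x :: w :: d1 :: d2 :: D').toFinset \ {w} := by
        simp [Pk]
      rw [hPk]
      refine VG.av_mem _ hN hY hr' ?_ hY3 ?_
      · (simp only [Finset.mem_erase, Finset.mem_sdiff, List.mem_toFinset, List.mem_cons, List.mem_append, List.not_mem_nil, or_false, Finset.mem_insert, Finset.mem_singleton, ne_eq, not_or, Finset.mem_union]; clear * - hnd2; grind)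
      · (ext z; simp only [Finset.mem_erase, Finset.mem_sdiff, List.mem_toFinset, List.mem_cons, List.mem_append, List.not_mem_nil, or_false, Finset.mem_insert, Finset.mem_singleton, ne_eq, not_or, Finset.mem_union]; clear * - hnd2; grind)

end Pool.Agent.Lib.MP_ad4d1c_co_h48.Ex
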