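import Pool.Agent.Lib.MP_ad4d1c_co_h48.ExDefs
import Pool.Agent.Lib.MP_ad4d1c_co_h87.ExC1
import Pool.Agent.Lib.MP_ad4d1c_co_h51.ExU
import Pool.Agent.Lib.MP_ad4d1c_co_h58.ExSP
import Pool.Agent.Lib.MP_ad4d1c_co_h64.ExJ1
import Pool.Agent.Lib.MP_ad4d1c_co_h42.ExJ2
import Pool.Agent.Lib.MP_ad4d1c_co_h38.ExD

set_option autoImplicit false

/-!
# Module VS: the chain of V-families
-/

namespace Pool.Agent.Lib.MP_ad4d1c_co_h48.Ex

open Finset

namespace VS

/-- membership in `δ_1, …, δ_n` -/
theorem mem_dls {n z : ℕ} : z ∈ dls 1 n ↔ ∃ j, 1 ≤ j ∧ j ≤ n ∧ dl j = z := by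
  simp only [dls, List.mem_map, List.mem_range'_1]
  constructor
  · rintro ⟨j, h1, h2⟩
    exact ⟨j, h1.1, by omega, h2⟩
  · rintro ⟨j, h1, h2, h3⟩
    exact ⟨j, ⟨h1, by omega⟩, h3⟩

/-- `τ_k` for odd `k` -/
theorem tau_odd {k : ℕ} (hk : k % 2 = 1) (hk5 : 5 ≤ k) :
    tau k = Icc 1 (k + 4) \ {k + 3, k + 1, 1, 3} := by
  ext z
  simp only [tau, mem_union, List.mem_toFinset, mem_dls, mem_sdiff, mem_Icc, mem_insert,
    mem_singleton, not_or]
  rw [if_neg (by omega)]
  simp only [mem_insert, mem_singleton]
  constructor
  · rintro (⟨j, h1, h2, h3⟩ | h)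
    · unfold dl at h3
      split_ifs at h3 <;> omega
    · omega
  · rintro ⟨h1, h2⟩
    by_cases hz : z % 2 = 1
    · by_cases hz5 : z = 5
      · right; right; exact hz5
      · left
        refine ⟨z - 6, by omega, by omega, ?_⟩
        unfold dl
        rw [if_pos (by omega)]
        omega
    · by_cases hz2 : z = 2
      · right; left; exact hz2
      · left
        refine ⟨z - 2, by omega, by omega, ?_⟩
        unfold dl
        rw [if_neg (by omega)]
        omega

/-- `τ_k` for even `k` -/
theorem tau_even {k : ℕ} (hk : k % 2 = 0) (hk5 : 4 ≤ k) :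
    tau k = Icc 1 (k + 3) \ {k + 2, 2, 5} := by
  ext z
  simp only [tau, mem_union, List.mem_toFinset, mem_dls, mem_sdiff, mem_Icc, mem_insert,
    mem_singleton, not_or]
  rw [if_pos (by omega)]
  simp only [mem_insert, mem_singleton]
  constructor
  · rintro (⟨j, h1, h2, h3⟩ | h)
    · unfold dl at h3
      split_ifs at h3 <;> omega
    · omega
  · rintro ⟨h1, h2⟩
    by_cases hz : z % 2 = 1
    · by_cases hz5 : z = 1 ∨ z = 3
      · right; exact hz5
      · left
        refine ⟨z - 6, by omega, by omega, ?_⟩
        unfold dl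
        rw [if_pos (by omega)]
        omega
    · left
      refine ⟨z - 2, by omega, by omega, ?_⟩
      unfold dl
      rw [if_neg (by omega)]
      omega

theorem joinS_succ (y : ℕ) (s : ℕ → Finset ℕ) (T : Fam) (l : ℕ) :
    joinS y s T (l + 1) = (match T l with
      | [] => s (l + 1)
      | p :: _ => insert y p.2) := rfl

theorem joinE_succ (y : ℕ) (e : ℕ → Finset ℕ) (L : Fam) (l : ℕ) :
    joinE y e L (l + 1) = (match (L l).getLast? with
      | none => e (l + 1)
      | some p => insert y p.2) := rfl

theorem det0T_pos {T L : Fam} {l : ℕ} (h : l ≠ 0) : det0T T L l = T l := by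
  unfold det0T; rw [if_neg h]

theorem det0L_pos {L : Fam} {l : ℕ} (h : l ≠ 0) : det0L L l = L l := by
  unfold det0L; rw [if_neg h]

theorem det0T_zero {T L : Fam} : det0T T L 0 = L 0 := rfl

theorem det0L_zero {L : Fam} : det0L L 0 = [] := rfl

/-- level 0 of a family without detached pair there -/
theorem lvl0 {b : List ℕ} {x : ℕ} {T L : Fam} (h : TPV (x :: b) T L) (h0 : T 0 = []) :
    L 0 = [({x}, ∅)] := by
  have hl := h.len 0
  rw [h0] at hl
  simp only [List.length_nil, zero_add, Nat.choose_zero_right] at hl
  obtain ⟨p, hp⟩ := List.length_eq_one_iff.mp hl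
  have h1 : p.1 = {x} := by
    have := h.head 0 p (by rw [hp]; simp)
    simpa using this
  have h2 : p.2 = ∅ := by
    have := (h.mem 0 p (by rw [hp, h0]; simp)).2.2.2
    exact Finset.card_eq_zero.mp this
  rw [hp]
  congr 1
  exact Prod.ext h1 h2

theorem two_le_choose {n l : ℕ} (h1 : 1 ≤ l) (h2 : l < n) : 2 ≤ n.choose l := by
  obtain ⟨n, rfl⟩ : ∃ m, n = m + 1 := ⟨n - 1, by omega⟩
  obtain ⟨l, rfl⟩ : ∃ m, l = m + 1 := ⟨l - 1, by omega⟩
  rw [Nat.choose_succ_succ' n l]
  have := Nat.choose_pos (n := n) (k := l) (by omega)
  have := Nat.choose_pos (n := n) (k := l + 1) (by omega)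
  omega

theorem lne {b : List ℕ} {T L : Fam} (h : TPV b T L) (h0 : T 0 = [])
    (h1 : T (b.length - 1) = []) {l : ℕ} (hl : l < b.length) : L l ≠ [] := by
  intro hn
  have h2 := h.len l
  have h3 := h.tlen l
  rw [hn] at h2
  simp only [List.length_nil, add_zero] at h2
  rcases Nat.eq_zero_or_pos l with rfl | hpos
  · rw [h0] at h2
    simp at h2
  · rcases Nat.lt_or_ge l (b.length - 1) with h4 | h4
    · have := two_le_choose hpos h4
      omega
    · have h5 : l = b.length - 1 := by omega
      rw [h5, h1] at h2
      simp at h2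

theorem exists_last {b a : List ℕ} {T L : Fam} (h : TPV b T L) (h0 : T 0 = [])
    (h1 : T (b.length - 1) = []) (he : Ends a L) {l : ℕ} (hl : l < b.length) :
    ∃ p, (L l).getLast? = some p ∧ p.2 = (a.take l).toFinset := by
  have h2 := lne h h0 h1 hl
  obtain ⟨p, hp⟩ : ∃ p, (L l).getLast? = some p := by
    rw [List.getLast?_eq_some_getLast h2]
    exact ⟨_, rfl⟩
  exact ⟨p, hp, he l p (by rw [hp]; rfl)⟩

theorem toFinset_of_perm {α : List ℕ} {n : ℕ} (h : α.Perm (List.range' 1 n)) :
    α.toFinset = Icc 1 n := by
  rw [List.toFinset_eq_of_perm _ _ h]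
  ext z
  simp only [List.mem_toFinset, List.mem_range'_1, mem_Icc]
  omega

theorem cons_toFinset {α : List ℕ} {i : ℕ} (hi : 1 ≤ i) (h : α.Perm (List.range' 1 (i - 1))) :
    (i :: α).toFinset = Icc 1 i := by
  rw [List.toFinset_cons, toFinset_of_perm h]
  ext z
  simp only [mem_insert, mem_Icc]
  omega

theorem eV_take {α : List ℕ} {i k : ℕ} (hk : 1 ≤ k) :
    eV i α (k + 1) = ((i :: α).take (k + 1)).toFinset := by
  unfold eV
  rw [if_neg (by omega), if_neg (by omega)]
  simp

/-- join with a special family -/
theorem joinA {i ty : ℕ} (hi : 10 ≤ i) (hev : i % 2 = 0) {α a0 : List ℕ}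
    (hα : α.Perm (List.range' 1 (i - 1))) {V T L : Fam} (hV : VV i (sV i 2) (eV i α) V)
    (hS : SP i (i - 2) 1 3 2 5 (i :: α) (a0 ++ [ty]) T L) :
    ∃ V', VV (i + 1) (sO (i + 1) ty) (eV (i + 1) (a0 ++ [ty])) V' := by
  have hlen : (i :: α).length = i := by
    rw [List.length_cons, hα.length_eq, List.length_range']
    omega
  have hfin := cons_toFinset (by omega) hα
  have t2 := hS.t2
  have t3 := hS.t3
  have t4 := hS.t4
  have tn := hS.tnone
  rw [hlen, hfin] at t2 t3 t4
  rw [hlen] at tn
  have hT0 : T 0 = [] := tn 0 (by omega) (by omega) (by omega)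
  have hT1 : T (i - 1) = [] := tn _ (by omega) (by omega) (by omega)
  have hL0 := lvl0 hS.tpv hT0
  have hd := TPV.det0 hS.tpv hT0
  have hlast : ∀ l, l < i → ∃ p, (L l).getLast? = some p ∧
      p.2 = ((a0 ++ [ty]).take l).toFinset := by
    intro l hl
    exact exists_last hS.tpv hT0 (by rw [hlen]; exact hT1) hS.ends (by rw [hlen]; exact hl)
  have halen : (a0 ++ [ty]).length = i := by rw [hS.perm.length_eq, hlen]
  have hafin : (a0 ++ [ty]).toFinset = Icc 1 i := by
    rw [List.toFinset_eq_of_perm _ _ hS.perm, hfin]
  have hand : (a0 ++ [ty]).Nodup := (hS.perm.nodup_iff).mpr hS.tpv.nd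
  have ha0len : a0.length = i - 1 := by
    rw [List.length_append] at halen
    simp at halen
    omega
  have ha0fin : a0.toFinset = Icc 1 i \ {ty} := by
    rw [← hafin]
    rw [List.nodup_append] at hand
    ext z
    simp only [List.mem_toFinset, mem_sdiff, List.mem_append, List.mem_singleton, mem_singleton]
    constructor
    · intro hz
      refine ⟨Or.inl hz, ?_⟩
      intro h
      exact hand.2.2 z hz ty (by simp) h
    · rintro ⟨h1 | h1, h2⟩
      · exact h1
      · exact absurd h1 h2
  have htymem : ty ∈ Icc 1 i := by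
    rw [← hafin]; simp
  have hs : ∀ k, ∀ p ∈ det0T T L k, p.1 = sV i 2 (k + 1) := by
    intro k p hp
    unfold det0T at hp
    split_ifs at hp with hk
    · subst hk
      rw [hL0] at hp
      simp only [List.mem_singleton] at hp
      subst hp
      simp [sV]
    · by_cases h2 : k = i - 2
      · subst h2
        rw [t2] at hp
        simp only [List.mem_singleton] at hp
        subst hp
        unfold sV
        rw [if_neg (by omega), if_neg (by omega), if_pos (by omega)]
        ext z
        simp only [mem_sdiff, mem_Icc, mem_singleton]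
        omega
      · by_cases h3 : k = i - 3
        · subst h3
          rw [t3] at hp
          simp only [List.mem_singleton] at hp
          subst hp
          unfold sV
          rw [if_neg (by omega), if_neg (by omega), if_neg (by omega), if_pos (by omega)]
          ext z
          simp only [mem_sdiff, mem_Icc, mem_singleton, mem_insert]
          omega
        · by_cases h4 : k = i - 4
          · subst h4
            rw [t4] at hp
            simp only [List.mem_singleton] at hp
            subst hp
            unfold sV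
            rw [if_neg (by omega), if_neg (by omega), if_neg (by omega), if_neg (by omega),
              if_pos (by omega)]
            ext z
            simp only [mem_sdiff, mem_Icc, mem_singleton, mem_insert]
            omega
          · rw [tn k h2 h3 h4] at hp
            simp at hp
  have he : ∀ k, k + 1 < i → det0L L k ≠ [] →
      eV i α (k + 1) = ((i :: α).take (k + 1)).toFinset := by
    intro k _ hk
    have : 1 ≤ k := by
      rcases Nat.eq_zero_or_pos k with rfl | h
      · exact absurd (by simp [det0L]) hk
      · exact h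
    exact eV_take this
  have hT' : det0T T L (i - 1) = [] := by
    unfold det0T
    rw [if_neg (by omega)]
    exact hT1
  have hJ := VV.join_even (y := i + 1) hev (by omega) rfl hV hd hfin hs hT' he
  refine ⟨_, hJ.congr ?_ ?_⟩
  · -- starts
    intro k hk _
    unfold topS
    split_ifs with h1 h2
    · subst h1
      -- level k = i
      have hL : det0L L (k - 1) = L (k - 1) := by
        unfold det0L; rw [if_neg (by omega)]
      rw [hL]
      have hll := hS.tpv.len (k - 1)
      rw [hT1, hlen] at hll
      simp only [List.length_nil, zero_add, Nat.choose_self] at hll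
      obtain ⟨p, hp⟩ := List.length_eq_one_iff.mp hll
      obtain ⟨p', hp', hp2⟩ := hlast (k - 1) (by omega)
      rw [hp] at hp' ⊢
      simp only [List.getLast?_singleton, Option.some.injEq] at hp'
      subst hp'
      simp only
      rw [hp2]
      have : (a0 ++ [ty]).take (k - 1) = a0 := by
        rw [← ha0len]; simp
      rw [this, ha0fin]
      unfold sO
      rw [if_neg (by omega), if_neg (by omega), if_neg (by omega), if_pos (by omega)]
      rw [mem_Icc] at htymem
      ext z
      simp only [mem_sdiff, mem_Icc, mem_singleton, mem_insert]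
      omega
    · subst h2
      unfold sO
      rw [if_neg (by omega), if_neg (by omega), if_pos rfl]
    · rcases Nat.eq_zero_or_pos k with rfl | hpos
      · simp [joinS, sV, sO]
      · obtain ⟨l, rfl⟩ : ∃ l, k = l + 1 := ⟨k - 1, by omega⟩
        rw [joinS_succ]
        by_cases hl0 : l = 0
        · subst hl0
          rw [det0T_zero, hL0]
          simp [sO]
        · rw [det0T_pos hl0]
          by_cases h2 : l = i - 2
          · subst h2
            rw [t2]
            simp only
            unfold sO
            rw [if_neg (by omega), if_neg (by omega), if_neg (by omega), if_neg (by omega),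
              if_pos (by omega)]
            ext z
            simp only [mem_sdiff, mem_Icc, mem_singleton, mem_insert]
            omega
          · by_cases h3 : l = i - 3
            · subst h3
              rw [t3]
              simp only
              unfold sO
              rw [if_neg (by omega), if_neg (by omega), if_neg (by omega), if_neg (by omega),
                if_neg (by omega), if_pos (by omega)]
              ext z
              simp only [mem_sdiff, mem_Icc, mem_singleton, mem_insert]
              omega
            · by_cases h4 : l = i - 4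
              · subst h4
                rw [t4]
                simp only
                unfold sO
                rw [if_neg (by omega), if_neg (by omega), if_neg (by omega), if_neg (by omega),
                  if_neg (by omega), if_neg (by omega), tau_odd (by omega) (by omega)]
                ext z
                simp only [mem_sdiff, mem_Icc, mem_singleton, mem_insert]
                omega
              · rw [tn l h2 h3 h4]
                simp only
                unfold sV sO
                rw [if_neg (by omega), if_neg (by omega), if_neg (by omega), if_neg (by omega),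
                  if_neg (by omega), if_neg (by omega), if_neg (by omega), if_neg (by omega),
                  if_neg (by omega), if_neg (by omega), if_neg (by omega)]
  · -- ends
    intro k hk _
    unfold topE
    split_ifs with h1
    · subst h1
      unfold eV
      rw [if_neg (by omega), if_neg (by omega)]
      have : (a0 ++ [ty]).take (i + 1 - 1) = a0 ++ [ty] := by
        apply List.take_of_length_le
        omega
      rw [this, hafin]
      ext z
      simp only [mem_Icc, mem_insert]
      omega
    · rcases Nat.eq_zero_or_pos k with rfl | hpos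
      · simp [joinE, eV]
      · obtain ⟨l, rfl⟩ : ∃ l, k = l + 1 := ⟨k - 1, by omega⟩
        rw [joinE_succ]
        by_cases hl0 : l = 0
        · subst hl0
          rw [det0L_zero]
          simp [eV]
        · rw [det0L_pos hl0]
          obtain ⟨p, hp, hp2⟩ := hlast l (by omega)
          rw [hp]
          simp only
          unfold eV
          rw [if_neg (by omega), if_neg (by omega), hp2]
          simp

/-- join with a plain family -/
theorem joinB {i ty : ℕ} (hi : 11 ≤ i) (hodd : i % 2 = 1) {a α : List ℕ}
    (ha : a.Perm (List.range' 1 (i - 1))) {V L : Fam} (hV : VV i (sO i ty) (eV i a) V)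
    (hP : PV (i :: a) α L) :
    ∃ V', VV (i + 1) (sV (i + 1) ty) (eV (i + 1) α) V' := by
  have hlen : (i :: a).length = i := by
    rw [List.length_cons, ha.length_eq, List.length_range']
    omega
  have hfin := cons_toFinset (by omega) ha
  have hT0 : nil 0 = [] := rfl
  have hL0 := lvl0 hP.tpv hT0
  have hd := TPV.det0 hP.tpv hT0
  have hlast : ∀ l, l < i → ∃ p, (L l).getLast? = some p ∧ p.2 = (α.take l).toFinset := by
    intro l hl
    exact exists_last hP.tpv hT0 rfl hP.ends (by rw [hlen]; exact hl)
  have hs : ∀ k, ∀ p ∈ det0T nil L k, p.1 = sO i ty (k + 1) := by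
    intro k p hp
    unfold det0T at hp
    split_ifs at hp with hk
    · subst hk
      rw [hL0] at hp
      simp only [List.mem_singleton] at hp
      subst hp
      simp [sO]
    · simp [nil] at hp
  have he : ∀ k, det0L L k ≠ [] →
      eV i a (k + 1) = ((i :: a).take (k + 1)).toFinset := by
    intro k hk
    have : 1 ≤ k := by
      rcases Nat.eq_zero_or_pos k with rfl | h
      · exact absurd (by simp [det0L]) hk
      · exact h
    exact eV_take this
  have hJ := VV.join_odd (y := i + 1) hodd rfl hV hd hfin hs he
  refine ⟨_, hJ.congr ?_ ?_⟩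
  · intro k hk _
    rcases Nat.eq_zero_or_pos k with rfl | hpos
    · simp [joinS, sV, sO]
    · obtain ⟨l, rfl⟩ : ∃ l, k = l + 1 := ⟨k - 1, by omega⟩
      rw [joinS_succ]
      by_cases hl0 : l = 0
      · subst hl0
        rw [det0T_zero, hL0]
        simp [sV]
      · rw [det0T_pos hl0]
        simp only [nil]
        unfold sO sV
        rw [if_neg (by omega), if_neg (by omega)]
        by_cases h1 : l + 1 = i
        · rw [if_pos h1, if_neg (by omega), if_neg (by omega), if_pos (by omega)]
          congr 1
        · rw [if_neg h1]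
          by_cases h2 : l + 1 = i - 1
          · rw [if_pos h2, if_neg (by omega), if_neg (by omega), if_neg (by omega),
              if_pos (by omega)]
            congr 1
          · rw [if_neg h2]
            by_cases h3 : l + 1 = i - 2
            · rw [if_pos h3, if_neg (by omega), if_neg (by omega), if_neg (by omega),
                if_neg (by omega), if_pos (by omega)]
              ext z
              simp only [mem_sdiff, mem_Icc, mem_singleton, mem_insert]
              omega
            · rw [if_neg h3]
              by_cases h4 : l + 1 = i - 3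
              · rw [if_pos h4, if_neg (by omega), if_neg (by omega), if_neg (by omega),
                  if_neg (by omega), if_neg (by omega), tau_even (by omega) (by omega)]
                ext z
                simp only [mem_sdiff, mem_Icc, mem_singleton, mem_insert]
                omega
              · rw [if_neg h4, if_neg (by omega), if_neg (by omega), if_neg (by omega),
                  if_neg (by omega), if_neg (by omega)]
  · intro k hk hne
    have hki : k ≠ i + 1 := by
      rintro rfl
      apply hne
      have := hJ.len (i + 1) le_rfl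
      rw [Nat.choose_eq_zero_of_lt (by omega)] at this
      apply List.length_eq_zero_iff.mp
      omega
    rcases Nat.eq_zero_or_pos k with rfl | hpos
    · simp [joinE, eV]
    · obtain ⟨l, rfl⟩ : ∃ l, k = l + 1 := ⟨k - 1, by omega⟩
      rw [joinE_succ]
      by_cases hl0 : l = 0
      · subst hl0
        rw [det0L_zero]
        simp [eV]
      · rw [det0L_pos hl0]
        obtain ⟨p, hp, hp2⟩ := hlast l (by omega)
        rw [hp]
        simp only
        unfold eV
        rw [if_neg (by omega), if_neg (by omega), hp2]
        simp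

/-- permutations of `range'` by counting -/
theorem perm_range_of {l : List ℕ} {n : ℕ} (hlen : l.length = n)
    (hmem : ∀ x, 1 ≤ x → x ≤ n → x ∈ l) : l.Perm (List.range' 1 n) := by
  have hsub : List.range' 1 n ⊆ l := by
    intro x hx
    rw [List.mem_range'_1] at hx
    exact hmem x hx.1 (by omega)
  have h1 : (List.range' 1 n).Subperm l := List.subperm_of_subset List.nodup_range' hsub
  exact (h1.perm_of_length_le (by rw [hlen, List.length_range'])).symm

end VS

theorem vs_even (i : ℕ) (hi : 10 ≤ i) (he : i % 2 = 0) :
    ∃ (α mid : List ℕ) (t y : ℕ) (V : Fam), α = 2 :: mid ++ [t, 1, y] ∧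
      α.Perm (List.range' 1 (i - 1)) ∧ t ≠ 3 ∧ y ∉ [1, 2, 3, 4, 5, 7, i - 2] ∧
      VV i (sV i 2) (eV i α) V := by
  obtain ⟨n, rfl⟩ : ∃ n, i = 10 + 2 * n := ⟨(i - 10) / 2, by omega⟩
  clear hi he
  induction n with
  | zero =>
    obtain ⟨V, hV⟩ := base_v10
    refine ⟨[2, 4, 8, 5, 7, 3, 6, 1, 9], [4, 8, 5, 7, 3], 6, 9, V, rfl, ?_, by decide, by decide,
      hV⟩
    decide
  | succ n ih =>
    obtain ⟨α, mid, t, y, V, hα, hp, ht, hy, hV⟩ := ih
    generalize hi : 10 + 2 * n = i at *
    have hi10 : 10 ≤ i := by omega
    have hie : i % 2 = 0 := by omega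
    have hi2 : 10 + 2 * (n + 1) = i + 2 := by omega
    rw [hi2]
    obtain ⟨a0, T, L, hS⟩ := sp_z hi10 hie hα hp ht hy
    have hS' : SP i (i - 2) 1 3 2 5 (i :: α) ((a0 ++ [5]) ++ [2]) T L := by
      rw [List.append_assoc]; exact hS
    obtain ⟨V1, hV1⟩ := VS.joinA hi10 hie hp hV hS'
    rw [List.append_assoc] at hV1
    change VV (i + 1) (sO (i + 1) 2) (eV (i + 1) (a0 ++ [5, 2])) V1 at hV1
    have hpa : (a0 ++ [5, 2]).Perm (List.range' 1 i) := by
      refine hS.perm.trans ?_
      have h1 : (i :: α).Perm (i :: List.range' 1 (i - 1)) := hp.cons i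
      refine h1.trans ?_
      have h2 : List.range' 1 i = List.range' 1 (i - 1) ++ [i] := by
        obtain ⟨j, rfl⟩ : ∃ j, i = j + 1 := ⟨i - 1, by omega⟩
        rw [List.range'_concat]
        simp
        omega
      rw [h2]
      exact (List.perm_append_singleton _ _).symm
    have hlen0 : a0.length = i - 2 := by
      have := hpa.length_eq
      rw [List.length_append, List.length_range'] at this
      simp at this
      omega
    have hmem0 : ∀ x, x ∈ a0 ++ [5, 2] ↔ 1 ≤ x ∧ x ≤ i := by
      intro x
      rw [hpa.mem_iff, List.mem_range'_1]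
      omega
    have hα' : (2 :: 3 :: (List.range' 5 (i - 4) ++ [4, 1, i + 1])).Perm
        (List.range' 1 (i + 1)) := by
      apply VS.perm_range_of
      · simp
        omega
      · intro x h1 h2
        simp only [List.mem_cons, List.mem_append, List.mem_range'_1, List.not_mem_nil, or_false]
        omega
    have hperm : (2 :: 3 :: (List.range' 5 (i - 4) ++ [4, 1, i + 1])).Perm
        (((i + 1) :: a0) ++ [5, 2]) := by
      refine hα'.trans ?_
      rw [List.range'_concat]
      refine (List.perm_append_singleton _ _).trans ?_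
      rw [List.cons_append]
      have h3 : 1 + 1 * i = i + 1 := by omega
      rw [h3]
      exact hpa.symm.cons (i + 1)
    obtain ⟨L2, hL2⟩ := univ (b0 := (i + 1) :: a0)
      (a0 := List.range' 5 (i - 4) ++ [4, 1, i + 1]) (u := 5) (y := 2) (v := 3)
      (by simp; omega) (by
        rw [← hperm.nodup_iff, hα'.nodup_iff]
        exact List.nodup_range') hperm (by decide)
    obtain ⟨V2, hV2⟩ := VS.joinB (by omega) (by omega) (a := a0 ++ [5, 2]) (by simpa using hpa) hV1
      hL2
    refine ⟨2 :: 3 :: (List.range' 5 (i - 4) ++ [4, 1, i + 1]), 3 :: List.range' 5 (i - 4), 4,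
      i + 1, V2, by simp, ?_, by decide, ?_, hV2⟩
    · exact hα'
    · simp only [List.mem_cons, List.not_mem_nil, or_false, not_or]
      omega

theorem vs_top_even (m : ℕ) (hm : 12 ≤ m) (he : m % 2 = 0) :
    ∃ (α α0 : List ℕ) (t : ℕ) (V : Fam), α = α0 ++ [t, 4, 3, 2, 5, 7] ∧ t ≠ 1 ∧
      α.Perm (List.range' 1 (m - 1)) ∧ VV m (sV m 1) (eV m α) V := by
  obtain ⟨i, rfl⟩ : ∃ i, m = i + 2 := ⟨m - 2, by omega⟩
  have hi10 : 10 ≤ i := by omega
  have hie : i % 2 = 0 := by omega
  obtain ⟨α, mid, t, y, V, hα, hp, ht, hy, hV⟩ := vs_even i hi10 hie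
  obtain ⟨a0, T, L, hS⟩ := sp_A hi10 hie hα hp ht hy
  have hS' : SP i (i - 2) 1 3 2 5 (i :: α) ((a0 ++ [3]) ++ [1]) T L := by
    rw [List.append_assoc]; exact hS
  obtain ⟨V1, hV1⟩ := VS.joinA hi10 hie hp hV hS'
  rw [List.append_assoc] at hV1
  change VV (i + 1) (sO (i + 1) 1) (eV (i + 1) (a0 ++ [3, 1])) V1 at hV1
  have hpa : (a0 ++ [3, 1]).Perm (List.range' 1 i) := by
    refine hS.perm.trans ?_
    have h1 : (i :: α).Perm (i :: List.range' 1 (i - 1)) := hp.cons i
    refine h1.trans ?_
    have h2 : List.range' 1 i = List.range' 1 (i - 1) ++ [i] := by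
      obtain ⟨j, rfl⟩ : ∃ j, i = j + 1 := ⟨i - 1, by omega⟩
      rw [List.range'_concat]
      simp
      omega
    rw [h2]
    exact (List.perm_append_singleton _ _).symm
  have hlen0 : a0.length = i - 2 := by
    have := hpa.length_eq
    rw [List.length_append, List.length_range'] at this
    simp at this
    omega
  have hα' : (1 :: 8 :: (List.range' 9 (i - 7) ++ [6, 4, 3, 2, 5, 7])).Perm
      (List.range' 1 (i + 1)) := by
    apply VS.perm_range_of
    · simp
      omega
    · intro x h1 h2
      simp only [List.mem_cons, List.mem_append, List.mem_range'_1, List.not_mem_nil, or_false]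
      omega
  have hperm : (1 :: 8 :: (List.range' 9 (i - 7) ++ [6, 4, 3, 2, 5, 7])).Perm
      (((i + 1) :: a0) ++ [3, 1]) := by
    refine hα'.trans ?_
    rw [List.range'_concat]
    refine (List.perm_append_singleton _ _).trans ?_
    rw [List.cons_append]
    have h3 : 1 + 1 * i = i + 1 := by omega
    rw [h3]
    exact hpa.symm.cons (i + 1)
  obtain ⟨L2, hL2⟩ := univ (b0 := (i + 1) :: a0)
    (a0 := List.range' 9 (i - 7) ++ [6, 4, 3, 2, 5, 7]) (u := 3) (y := 1) (v := 8)
    (by simp; omega) (by
      rw [← hperm.nodup_iff, hα'.nodup_iff]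
      exact List.nodup_range') hperm (by decide)
  obtain ⟨V2, hV2⟩ := VS.joinB (by omega) (by omega) (a := a0 ++ [3, 1]) (by simpa using hpa) hV1
    hL2
  exact ⟨1 :: 8 :: (List.range' 9 (i - 7) ++ [6, 4, 3, 2, 5, 7]), 1 :: 8 :: List.range' 9 (i - 7),
    6, V2, by simp, by decide, hα', hV2⟩

theorem vs_top_odd (m : ℕ) (hm : 13 ≤ m) (he : m % 2 = 1) :
    ∃ (α α0 : List ℕ) (t : ℕ) (V : Fam), α = α0 ++ [t, 4, 3, 2, 5, 7] ∧ t ≠ 1 ∧
      α.Perm (List.range' 1 (m - 1)) ∧ VV m (sO m 7) (eV m α) V := by
  obtain ⟨i, rfl⟩ : ∃ i, m = i + 1 := ⟨m - 1, by omega⟩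
  have hi10 : 10 ≤ i := by omega
  have hie : i % 2 = 0 := by omega
  obtain ⟨α, mid, t, y, V, hα, hp, ht, hy, hV⟩ := vs_even i hi10 hie
  obtain ⟨a0, t', T, L, ht', hS⟩ := sp_g hi10 hie hα hp ht hy
  have hS' : SP i (i - 2) 1 3 2 5 (i :: α) ((a0 ++ [t', 4, 3, 2, 5]) ++ [7]) T L := by
    rw [List.append_assoc]; exact hS
  obtain ⟨V1, hV1⟩ := VS.joinA hi10 hie hp hV hS'
  rw [List.append_assoc] at hV1
  change VV (i + 1) (sO (i + 1) 7) (eV (i + 1) (a0 ++ [t', 4, 3, 2, 5, 7])) V1 at hV1
  have hpa : (a0 ++ [t', 4, 3, 2, 5, 7]).Perm (List.range' 1 i) := by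
    refine hS.perm.trans ?_
    have h1 : (i :: α).Perm (i :: List.range' 1 (i - 1)) := hp.cons i
    refine h1.trans ?_
    have h2 : List.range' 1 i = List.range' 1 (i - 1) ++ [i] := by
      obtain ⟨j, rfl⟩ : ∃ j, i = j + 1 := ⟨i - 1, by omega⟩
      rw [List.range'_concat]
      simp
      omega
    rw [h2]
    exact (List.perm_append_singleton _ _).symm
  exact ⟨_, a0, t', V1, rfl, ht', by simpa using hpa, hV1⟩

end Pool.Agent.Lib.MP_ad4d1c_co_h48.Ex
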